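import Pool.Agent.H63.LI4

set_option autoImplicit false

namespace Pool.Agent.Results.MP_411a76_lc.Undec

theorem result : ¬ ComputablePred Pool.Agent.H63.LI.Theory := Pool.Agent.H63.LI.undec

end Pool.Agent.Results.MP_411a76_lc.Undec
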